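import Pool.Agent.Helper617.CR.Mod5

/-!
There is a model of `RCA₀` in which cohesive Ramsey's theorem for pairs `CRT²₂` holds and the
cohesiveness principle `COH` fails. Hence `RCA₀ + CRT²₂` does not prove `COH`.

Outline. A colouring `col` of the numbers by finitely many colours is fixed, and the colours are
the leaves of a finite binary tree `T`. A finite set `Y` is large of level `n` for `T` if all the
colours of its convex hull are colours of `T` and `Y` contains sets of level `n - 1` after each of
the following moves: a subtree on one side of the root (answer: a subset whose hull has only
colours of this side, large for the subtree), a set of at most `min Y` points (answer: a subset in
one gap), a colouring of points by at most `min Y` colours (answer: a subset on which it depends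
only on `col`), an embedded tree (answer: a subset large for it), a colouring `c` of pairs
(answer: an embedded tree `T'` which is high if `T` is very high, and a subset, large for `T'`, on
which `c(x, y) = c(x, y')` whenever all colours between `y` and `y'` are in a part of `T'` that
does not contain the colour of `x`), and a set `X` (answer: either a large subset in a gap of `X`,
or a set `B` of colours and a large subset such that between any two of its points there are
points of `X` with colour in `B` and points of `X` with colour not in `B`). Infinite sets with
large blocks satisfy the corresponding partition theorems (files `Tree`, `Large`, `Split`), and
compactness gives large finite sets of all levels (`Comp`, `Exist`). In a countable nonstandard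
model, given by codes of internal functions modulo an ultrafilter, the game is played against all
internal opponents in `ω` steps, starting with a tree and a set of nonstandard level; in the
course of the game every single colour is removed. The numbers below some lower bound of the sets
obtained form a cut; with the traces of the internal sets this is a model of `RCA₀` (`Mod4`) and
of `CRT²₂`, and the sequence of the sets `{x | col x ∈ B}`, `B` a set of colours, has no cohesive
set (`Mod5`).
-/

namespace Pool.Agent.Results.MP_5a182c_lc.CohesiveRamseyWithoutCOH

open Pool.Agent.Helper617.RM Pool.Agent.Helper617.CR

/-- **Main theorem.** There is a structure for second-order arithmetic which is a model of
`RCA₀` and of cohesive Ramsey's theorem for pairs and two colours, and in which the cohesiveness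
principle fails. -/
theorem result : ∃ N : L2Structure.{0}, IsModelRCA0 N ∧ CRT22 N ∧ ¬ COH N :=
  ⟨PP, isModel, crt, not_coh⟩

end Pool.Agent.Results.MP_5a182c_lc.CohesiveRamseyWithoutCOH
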